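import Mathlib
import Pool.Agent.MP_b8ade4_gt.h67.Main2

/-!
The connected sum of long Legendrian embeddings is not injective on fundamental groups as soon as
both embeddings are connected sums with a fixed curve `γ₀` whose diagram has two kinks of opposite
signs: the kernel contains an element of infinite order.
-/

open Pool.Agent.MP_b8ade4_gt

theorem Pool.Agent.Results.MP_b8ade4_gt.DoublyStabilised.result :
    ∃ (γ₀ : Long) (T₀ : ℝ), TwoKinks γ₀.1 ∧ InBox T₀ γ₀.1 ∧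
      ∀ T ≥ T₀, ∀ δ₁ δ₂ : Long, InBox T δ₁.1 → InBox T δ₂.1 →
        ∃ c₁ c₂ : Long, c₁.1 = glue T δ₁.1 γ₀.1 ∧ c₂.1 = glue T γ₀.1 δ₂.1 ∧
          InBox (2 * T) c₁.1 ∧ InBox (2 * T) c₂.1 ∧
          ∀ R ≥ 2 * T, ∀ γ₁ γ₂ : Long, JoinedIn {γ : Long | InBox R γ.1} c₁ γ₁ →
            JoinedIn {γ : Long | InBox R γ.1} c₂ γ₂ →
            ∃ (α₁ : Path γ₁ γ₁) (α₂ : Path γ₂ γ₂), (∀ θ, InBox R (α₁ θ).1 ∧ InBox R (α₂ θ).1) ∧
              ¬ IsOfFinOrder (FundamentalGroup.fromPath (Path.Homotopic.Quotient.mk α₂) :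
                FundamentalGroup Long γ₂) ∧
              ∃ (δ : Long) (β : Path δ δ), (∀ θ, (β θ).1 = glue R (α₁ θ).1 (α₂ θ).1) ∧
                ∃ H : β.Homotopy (Path.refl δ), ∀ q, InBox (2 * R) (H q).1 :=
  main2

/-- The negated form of the question, with `k = 1`: a nontrivial element of
`π₁(γ₁) × π₁(γ₂)` which the connected sum sends to the trivial element. -/
theorem Pool.Agent.Results.MP_b8ade4_gt.DoublyStabilised.negated_form :
    ∃ (γ₁ γ₂ : Long) (α₁ : Path γ₁ γ₁) (α₂ : Path γ₂ γ₂) (R : ℝ),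
      (∀ θ, InBox R (α₁ θ).1 ∧ InBox R (α₂ θ).1) ∧
      ((FundamentalGroup.fromPath (Path.Homotopic.Quotient.mk α₁),
        FundamentalGroup.fromPath (Path.Homotopic.Quotient.mk α₂)) :
          FundamentalGroup Long γ₁ × FundamentalGroup Long γ₂) ≠ 1 ∧
      ∃ (δ : Long) (β : Path δ δ), (∀ θ, (β θ).1 = glue R (α₁ θ).1 (α₂ θ).1) ∧
        (FundamentalGroup.fromPath (Path.Homotopic.Quotient.mk β) : FundamentalGroup Long δ) = 1 := by
  obtain ⟨γ₀, T, -, -, h⟩ := Pool.Agent.Results.MP_b8ade4_gt.DoublyStabilised.result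
  obtain ⟨c₁, c₂, -, -, b₁, b₂, h⟩ := h T le_rfl line line (line_box T) (line_box T)
  obtain ⟨α₁, α₂, hb, hi, δ, β, hβ, H, -⟩ := h _ le_rfl c₁ c₂ (JoinedIn.refl b₁) (JoinedIn.refl b₂)
  refine ⟨c₁, c₂, α₁, α₂, _, hb, fun e => hi ?_, δ, β, hβ, Path.Homotopic.Quotient.eq.2 ⟨H⟩⟩
  rw [show FundamentalGroup.fromPath (Path.Homotopic.Quotient.mk α₂) = 1 from congrArg Prod.snd e]
  exact IsOfFinOrder.one
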