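import Mathlib
import Pool.Agent.MP_b8ade4_gt.CFin

/-!
The connected sum of long Legendrian embeddings is not injective on fundamental groups:
there is a loop `α` which is not null-homotopic, while `θ ↦ α θ # α (1 - θ)` is.
-/

open Pool.Agent.MP_b8ade4_gt

theorem Pool.Agent.Results.MP_b8ade4_gt.NotInj.result :
    ∃ (γ : Long) (α : Path γ γ), ¬ α.Homotopic (Path.refl γ) ∧
      ∃ T > 0, (∀ θ, InBox T (α θ).1) ∧ ∀ R ≥ T, ∃ (δ : Long) (β : Path δ δ),
        (∀ θ, (β θ).1 = glue R (α θ).1 (α.symm θ).1) ∧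
        ∃ H : β.Homotopy (Path.refl δ), ∀ q, InBox (2 * R) (H q).1 :=
  main
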